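import Pool.Agent.Helper26.AL.GoalsA

/-!
# Project AL (MP_af6c86_pr): the packet BIJ
-/

set_option autoImplicit false

open Finset Pool.Agent.Helper26.AF Pool.Agent.Helper26.AL

namespace Pool.Agent.Helper35.AL

theorem ne_le {n : ℕ} (G : SimpleGraph (Fin n)) : ne G ≤ n.choose 2 := by
  classical
  unfold ne
  rw [Nat.card_eq_fintype_card, ← SimpleGraph.edgeFinset_card]
  have h := SimpleGraph.card_edgeFinset_le_card_choose_two (G := G)
  rwa [Fintype.card_fin] at h

theorem wt_half {n : ℕ} (G : SimpleGraph (Fin n)) :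
    wt (1 / 2 : ℝ) G = (1 / 2 : ℝ) ^ (n.choose 2) := by
  unfold wt
  rw [Fintype.card_fin, show (1 - 1 / 2 : ℝ) = 1 / 2 by norm_num, ← pow_add,
    Nat.add_sub_cancel' (ne_le G)]

theorem clo_compl {n : ℕ} (G : SimpleGraph (Fin n)) (U : Finset (Fin n)) (h : Clo G U) :
    Clo G Uᶜ := by
  intro x y hxy hx
  rw [Finset.mem_compl] at hx ⊢
  intro hy
  exact hx (h y x hxy.symm hy)

theorem goalBIJ (hFU : Pool.Agent.Helper26.AL.StmtFU) : Pool.Agent.Helper26.AL.StmtBIJ := by
  intro k w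
  let T : ℕ → ℕ → ℝ := fun j i =>
    ∑ H₁ : SimpleGraph (Fin j), ∑ H₂ : SimpleGraph (Fin i), w j i H₁ H₂
  rw [Finset.sum_comm]
  have hcard : ∀ U : Finset (Fin k), #U + #Uᶜ = k := by
    intro U
    rw [Finset.card_add_card_compl, Fintype.card_fin]
  have key : ∀ U : Finset (Fin k), (∑ G : SimpleGraph (Fin k), open Classical in
      if Clo G U then w #U #Uᶜ (gi G U) (gi G Uᶜ) else 0) = T #U (k - #U) := by
    intro U
    have hk : #Uᶜ = k - #U := by
      have := hcard U
      omega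
    rw [← hk]
    have h := hFU k U Uᶜ disjoint_compl_right (w #U #Uᶜ) (1 / 2) (by norm_num) (by norm_num)
    rw [EE, hcard] at h
    have e1 : ∀ G : SimpleGraph (Fin k), wt (1 / 2 : ℝ) G * (open Classical in
        if Clo G U ∧ Clo G Uᶜ then w #U #Uᶜ (gi G U) (gi G Uᶜ) else 0) =
        (1 / 2 : ℝ) ^ (k.choose 2) * (open Classical in
        if Clo G U then w #U #Uᶜ (gi G U) (gi G Uᶜ) else 0) := by
      intro G
      rw [wt_half]
      by_cases hG : Clo G U
      · rw [if_pos hG, if_pos ⟨hG, clo_compl G U hG⟩]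
      · rw [if_neg hG, if_neg (fun hh => hG hh.1)]
    have e2 : MM k k = k.choose 2 := by
      unfold MM
      rw [Nat.sub_self, Nat.mul_zero, Nat.zero_add]
    rw [Finset.sum_congr rfl fun G _ => e1 G, ← Finset.mul_sum, e2] at h
    have e3 : (1 - 1 / 2 : ℝ) = 1 / 2 := by norm_num
    rw [e3] at h
    have e4 : ((1 / 2 : ℝ) ^ (k.choose 2)) ≠ 0 := by positivity
    have h' := mul_left_cancel₀ e4 h
    rw [h']
    refine Finset.sum_congr rfl fun H₁ _ => Finset.sum_congr rfl fun H₂ _ => ?_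
    rw [div_self (by norm_num : (1 / 2 : ℝ) ≠ 0), one_pow, mul_one]
  rw [Finset.sum_congr rfl fun U _ => key U]
  have e5 := Finset.sum_powerset_apply_card (fun j => T j (k - j))
    (x := (Finset.univ : Finset (Fin k)))
  rw [Finset.powerset_univ, Finset.card_univ, Fintype.card_fin] at e5
  rw [e5]
  refine Finset.sum_congr rfl fun j _ => ?_
  rw [nsmul_eq_mul]

end Pool.Agent.Helper35.AL
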