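import Pool.Agent.Helper26.AL.GoalsC

/-!
# Project AL (MP_af6c86_pr): the packet JCO
-/

set_option autoImplicit false

open Filter Topology MeasureTheory

namespace Pool.Agent.Helper35.AL

/-- the integrand -/
noncomputable def ig (a l x : ℝ) : ℝ := x ^ (a - 1) * Real.exp (-((x - l) ^ 3 + l ^ 3) / 6)

theorem ig_nonneg (a l : ℝ) {x : ℝ} (hx : 0 < x) : 0 ≤ ig a l x :=
  mul_nonneg (Real.rpow_nonneg hx.le _) (Real.exp_pos _).le

theorem ig_meas (a l : ℝ) : Measurable (ig a l) := by
  unfold ig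
  fun_prop

theorem ig_le (a l : ℝ) {x : ℝ} (hx : 0 < x) :
    ig a l x ≤ Real.exp (3 * |l| / 2 + 3) * (Real.exp (-x) * x ^ (a - 1)) := by
  unfold ig
  have h1 : -((x - l) ^ 3 + l ^ 3) / 6 ≤ (3 * |l| / 2 + 3) + -x := by
    have e : ((x - l) ^ 3 + l ^ 3) / 6 = x / 6 * ((x - 3 * l / 2) ^ 2 + 3 * l ^ 2 / 4) := by ring
    have h2 : x - (3 * |l| / 2 + 3) ≤ ((x - l) ^ 3 + l ^ 3) / 6 := by
      rw [e]
      by_cases h3 : 6 ≤ (x - 3 * l / 2) ^ 2
      · have h4 : x ≤ x / 6 * ((x - 3 * l / 2) ^ 2 + 3 * l ^ 2 / 4) := by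
          have h5 : x / 6 * 6 ≤ x / 6 * ((x - 3 * l / 2) ^ 2 + 3 * l ^ 2 / 4) := by
            apply mul_le_mul_of_nonneg_left _ (by linarith)
            have := sq_nonneg l
            linarith
          linarith
        have := abs_nonneg l
        linarith
      · have h6 : x - 3 * l / 2 ≤ 3 := by
          by_contra h7
          apply h3
          nlinarith
        have h7 := le_abs_self l
        have h8 : 0 ≤ x / 6 * ((x - 3 * l / 2) ^ 2 + 3 * l ^ 2 / 4) := by positivity
        linarith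
    linarith
  calc x ^ (a - 1) * Real.exp (-((x - l) ^ 3 + l ^ 3) / 6)
      ≤ x ^ (a - 1) * Real.exp ((3 * |l| / 2 + 3) + -x) :=
        mul_le_mul_of_nonneg_left (Real.exp_le_exp.mpr h1) (Real.rpow_nonneg hx.le _)
    _ = _ := by
      rw [Real.exp_add]
      ring

theorem ig_int (a l : ℝ) (ha : 0 < a) : IntegrableOn (ig a l) (Set.Ioi 0) := by
  have h := (Real.GammaIntegral_convergent ha).const_mul (Real.exp (3 * |l| / 2 + 3))
  refine Integrable.mono' h (ig_meas a l).aestronglyMeasurable ?_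
  filter_upwards [ae_restrict_mem measurableSet_Ioi] with x hx
  rw [Real.norm_eq_abs, abs_of_nonneg (ig_nonneg a l hx)]
  exact ig_le a l hx

theorem ig_shift (a l l' : ℝ) (h : |l' - l| ≤ 1) {x : ℝ} (hx : 0 < x) :
    ig a l' x ≤ Real.exp (3 * (2 * |l| + 3) ^ 2 / 8) * ig a (l + 2) x := by
  unfold ig
  have h1 : -((x - l') ^ 3 + l' ^ 3) / 6 ≤
      3 * (2 * |l| + 3) ^ 2 / 8 + -((x - (l + 2)) ^ 3 + (l + 2) ^ 3) / 6 := by
    obtain ⟨h2, h3⟩ := abs_le.mp h
    set d := (l + 2) - l' with hd
    set s := (l + 2) + l' with hs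
    have e : ((x - l') ^ 3 + l' ^ 3) / 6 - ((x - (l + 2)) ^ 3 + (l + 2) ^ 3) / 6 =
        d * (x * (x - s)) / 2 := by
      rw [hd, hs]
      ring
    have hd1 : 0 ≤ d := by linarith
    have hd2 : d ≤ 3 := by linarith
    have h4 : -(s ^ 2 / 4) ≤ x * (x - s) := by nlinarith [sq_nonneg (x - s / 2)]
    have h5 : s ^ 2 ≤ (2 * |l| + 3) ^ 2 := by
      apply sq_le_sq'
      · have := neg_abs_le l
        rw [hs]
        linarith
      · have := le_abs_self l
        rw [hs]
        linarith
    have h6 : d * (s ^ 2 / 4) ≤ 3 * ((2 * |l| + 3) ^ 2 / 4) := by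
      apply mul_le_mul hd2 _ (by positivity) (by norm_num)
      linarith
    have h7 : -(d * (s ^ 2 / 4)) ≤ d * (x * (x - s)) := by
      have := mul_le_mul_of_nonneg_left h4 hd1
      linarith
    linarith
  calc x ^ (a - 1) * Real.exp (-((x - l') ^ 3 + l' ^ 3) / 6)
      ≤ x ^ (a - 1) * Real.exp (3 * (2 * |l| + 3) ^ 2 / 8 +
          -((x - (l + 2)) ^ 3 + (l + 2) ^ 3) / 6) :=
        mul_le_mul_of_nonneg_left (Real.exp_le_exp.mpr h1) (Real.rpow_nonneg hx.le _)
    _ = _ := by
      rw [Real.exp_add]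
      ring

theorem goalJCO : Pool.Agent.Helper26.AL.StmtJCO := by
  intro r
  by_cases hr : r = 0
  · subst hr
    have e : ∀ l, Pool.Agent.Helper26.AL.JJ l 0 = 1 := fun l => by
      simp [Pool.Agent.Helper26.AL.JJ]
    refine ⟨?_, ?_, ?_⟩
    · simp only [e]
      exact continuous_const
    · intro l
      rw [e]
      exact zero_le_one
    · intro l l' _
      rw [e, e, mul_one]
      apply Real.one_le_exp
      positivity
  · have hr1 : (1 : ℝ) ≤ r := by
      have : 1 ≤ r := Nat.one_le_iff_ne_zero.mpr hr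
      exact_mod_cast this
    have ha : 0 < 3 * (r : ℝ) / 2 := by linarith
    have e : ∀ l, Pool.Agent.Helper26.AL.JJ l r =
        (∫ x in Set.Ioi (0 : ℝ), ig (3 * (r : ℝ) / 2) l x) /
          (2 ^ (3 * (r : ℝ) / 2) * Real.Gamma (3 * (r : ℝ) / 2)) := fun l => by
      rw [Pool.Agent.Helper26.AL.JJ, if_neg hr]
      rfl
    have hden : 0 < (2 : ℝ) ^ (3 * (r : ℝ) / 2) * Real.Gamma (3 * (r : ℝ) / 2) :=
      mul_pos (Real.rpow_pos_of_pos (by norm_num) _) (Real.Gamma_pos_of_pos ha)
    refine ⟨?_, ?_, ?_⟩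
    · simp only [e]
      apply Continuous.div_const
      rw [continuous_iff_continuousAt]
      intro l
      refine continuousAt_of_dominated
        (bound := fun x => Real.exp (3 * (2 * |l| + 3) ^ 2 / 8) * ig (3 * (r : ℝ) / 2) (l + 2) x)
        ?_ ?_ ?_ ?_
      · exact Eventually.of_forall fun l' => (ig_meas _ l').aestronglyMeasurable
      · have hb : ∀ᶠ l' in 𝓝 l, |l' - l| ≤ 1 := by
          have h1 := Metric.ball_mem_nhds l one_pos
          filter_upwards [h1] with l' hl'
          rw [Metric.mem_ball, Real.dist_eq] at hl'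
          exact hl'.le
        filter_upwards [hb] with l' hl'
        filter_upwards [ae_restrict_mem measurableSet_Ioi] with x hx
        rw [Real.norm_eq_abs, abs_of_nonneg (ig_nonneg _ l' hx)]
        exact ig_shift _ l l' hl' hx
      · exact (ig_int _ (l + 2) ha).const_mul _
      · refine Eventually.of_forall fun x => ?_
        unfold ig
        fun_prop
    · intro l
      rw [e]
      apply div_nonneg _ hden.le
      apply setIntegral_nonneg measurableSet_Ioi
      intro x hx
      exact ig_nonneg _ l hx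
    · intro l l' h
      rw [e, e, ← mul_div_assoc]
      apply div_le_div_of_nonneg_right _ hden.le
      rw [← integral_const_mul]
      apply setIntegral_mono_on (ig_int _ l' ha) ((ig_int _ (l + 2) ha).const_mul _)
        measurableSet_Ioi
      intro x hx
      exact ig_shift _ l l' h hx

end Pool.Agent.Helper35.AL
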